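import Mathlib

set_option autoImplicit false

namespace Pool.Agent.Results.MP_039f74_co.Six

open Finset

abbrev G := ZMod 6 × ZMod 2 × ZMod 2 × ZMod 2

def S : Finset G := {(1, 0, 0, 0), (1, 1, 0, 0), (1, 0, 1, 0), (1, 0, 0, 1)}

theorem gen : AddSubgroup.closure (S : Set G) = ⊤ := by
  refine (AddSubgroup.eq_top_iff' _).mpr fun x => ?_
  have : ∀ x : G, x = (x.1 - x.2.1.val - x.2.2.1.val - x.2.2.2.val).val • ((1, 0, 0, 0) : G) +
      x.2.1.val • ((1, 1, 0, 0) : G) + x.2.2.1.val • ((1, 0, 1, 0) : G) +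
      x.2.2.2.val • ((1, 0, 0, 1) : G) := by decide +kernel
  rw [this x]
  refine add_mem (add_mem (add_mem ?_ ?_) ?_) ?_ <;>
    exact nsmul_mem (AddSubgroup.subset_closure (by simp [S])) _

theorem rk : AddGroup.rank G = 4 := by
  refine le_antisymm (AddGroup.rank_le gen) ?_
  have e : AddMonoid.exponent G ∣ 6 := AddMonoid.exponent_dvd_of_forall_nsmul_eq_zero (by decide +kernel)
  have := (card_dvd_exponent_nsmul_rank G).trans (pow_dvd_pow_of_dvd e _)
  rw [Nat.card_eq_fintype_card] at this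
  by_contra! h
  exact absurd (this.trans (pow_dvd_pow 6 (Nat.le_of_lt_succ h))) (by decide +kernel)

theorem result : ∃ (G : Type) (_ : AddCommGroup G) (_ : Fintype G) (_ : DecidableEq G)
    (S A : Finset G) (d : ℕ) (γ : ℝ), AddSubgroup.closure (S : Set G) = ⊤ ∧
    IsLeast (addOrderOf '' (S : Set G)) d ∧ 0 < γ ∧ γ ≤ 1 ∧ A.Nonempty ∧ A ≠ univ ∧
    (((A ×ˢ S).filter fun p => p.1 + p.2 ∉ A).card : ℝ) ≤ (1 - γ) * AddGroup.rank G * A.card ∧
    (A.card : ℝ) < (4 : ℝ) ^ ((1 - 1 / (d : ℝ)) * γ * AddGroup.rank G) := by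
  have o : ∀ s ∈ S, addOrderOf s = 6 := fun s hs =>
    (addOrderOf_eq_iff (by norm_num)).mpr (by revert s; decide +kernel)
  have a : (univ.filter fun x : G => x.1 ≠ 5).card = 40 := by decide +kernel
  have b : (((univ.filter fun x : G => x.1 ≠ 5) ×ˢ S).filter fun p =>
      p.1 + p.2 ∉ univ.filter fun x : G => x.1 ≠ 5).card = 32 := by decide +kernel
  refine ⟨G, inferInstance, inferInstance, inferInstance, S, univ.filter fun x => x.1 ≠ 5, 6, 4 / 5, gen,
    ⟨⟨(1, 0, 0, 0), by simp [S], o _ (by simp [S])⟩, by rintro _ ⟨s, hs, rfl⟩; exact (o s hs).ge⟩,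
    by norm_num, by norm_num, by decide +kernel, by decide +kernel, ?_, ?_⟩
  · rw [a, b, rk]; norm_num
  · rw [a, rk]
    refine lt_of_pow_lt_pow_left₀ 3 (by positivity) ?_
    rw [← Real.rpow_natCast (_ ^ _), ← Real.rpow_mul (by norm_num)]
    norm_num

end Pool.Agent.Results.MP_039f74_co.Six
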